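import Pool.Agent.H8.AV3.Stmts

/-!
MP_81dc49_nt, AV3, module LAT: an integral form.
-/

set_option autoImplicit false

namespace Pool.Agent.H57.AV3

open Pool.AV3 Matrix

theorem LAT_thm : Pool.AV3.LATStmt := by
  intro K _ O a b c u v w r s ha hb hc hu hv hw hr hs hw0 h1 h2
  refine ⟨![0, w ^ 2, -u, -(2 * (w * v * s ^ 2)), -(2 * (v * s * r * w ^ 2)), -(2 * (v * r)),
    v ^ 2 * s ^ 4,
    -(2 * (r * w)) + 2 * (r ^ 3 * w ^ 7) - r ^ 4 * w ^ 10 +
      (a * u ^ 2 + b * u * w ^ 2 + c * w ^ 4) * s ^ 3 * (1 + r * w ^ 3),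
    u * (-(3 * (r ^ 2 * w ^ 2)) + 2 * (r ^ 3 * w ^ 5)) +
      a * (-(3 * (r ^ 2 * w ^ 4)) + 2 * (r ^ 3 * w ^ 7)) +
      (b * u * s ^ 2 + c * w ^ 2 * s ^ 2) * (1 + 2 * (r * w ^ 3)),
    -(u ^ 2 + a * u * w ^ 2 + b * w ^ 4) * r ^ 2 + c * s * (1 + r * w ^ 3)], ?_, ?_, ?_⟩
  · have h2O : (2 : K) ∈ O := ofNat_mem O 2
    have h3O : (3 : K) ∈ O := ofNat_mem O 3
    intro i
    fin_cases i <;> simp only [Fin.zero_eta, Fin.isValue, Matrix.cons_val, Fin.mk_one,
      Fin.reduceFinMk] <;>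
    repeat' first
      | assumption
      | apply O.zero_mem
      | apply O.one_mem
      | apply O.sub_mem
      | apply O.add_mem
      | apply O.neg_mem
      | apply O.mul_mem
      | apply O.pow_mem
  · rw [det_fin_three]
    simp only [Matrix.of_apply, Matrix.cons_val]
    simp [hw0]
  · have hw3 : w ^ 3 ≠ 0 := pow_ne_zero _ hw0
    have hw6 : w ^ 6 ≠ 0 := pow_ne_zero _ hw0
    have hr' : r = (1 - s * u) / w ^ 3 := by
      rw [eq_div_iff hw3]
      linear_combination h1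
    have hc' : c = (v ^ 2 - (u ^ 3 + a * u ^ 2 * w ^ 2 + b * u * w ^ 4)) / w ^ 6 := by
      rw [eq_div_iff hw6]
      linear_combination -h2
    have hdet : (!![w ^ 2, -(v * s ^ 2 * w), -(v * s / w); 0, 1, 0; 0, 0, 1] :
        Matrix (Fin 3) (Fin 3) K).det = w ^ 2 := by
      rw [det_fin_three]
      simp only [Matrix.of_apply, Matrix.cons_val]
      ring
    rw [hdet]
    clear h1 h2 hr hc ha hb hu hv hw hs hdet
    subst hr'
    subst hc'
    funext i
    fin_cases i <;>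
    simp only [tsub, tev, tder, FP, Pi.smul_apply, smul_eq_mul, Matrix.of_apply, Fin.zero_eta,
      Fin.isValue, Matrix.cons_val, Fin.mk_one, Fin.reduceFinMk] <;>
    field_simp <;> ring

end Pool.Agent.H57.AV3
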